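import Mathlib

/-!
# Regular polygons in projective-metric spaces: hyperplanes of spaces with the regular polygon
# property are arbitrary

For every finite-dimensional strictly convex real normed space `V ≠ 0` the `ℓ²`-sum `ℝ ⊕₂ V` is a
projective-metric space of straight type and of dimension `dim V + 1` which has the regular polygon
property. It is never hyperbolic, and it is Euclidean only if `V` is Euclidean. Hence every strictly
convex Minkowski space of dimension `m - 1` is a hyperplane of an `m`-dimensional projective-metric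
space with the regular polygon property.
-/

set_option autoImplicit false

namespace Pool.Agent.Results.MP_a3bfba_gt.HyperplanesArbitrary

open Set

/-- A projective-metric space of straight type and dimension `m`: a nonempty metric space `X`
identified by the chart `φ` with an open convex subset (the range of `φ`) of the `m`-dimensional
real affine space, such that the metric induces the usual topology (`φ` is an open embedding), and
for distinct points `x, y, z` one has `d(x,y) + d(y,z) = d(x,z)` if and only if `y` lies on the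
open segment from `x` to `z`. -/
def IsStraightProjectiveMetric (m : ℕ) (X : Type) [MetricSpace X] : Prop :=
  Nonempty X ∧ ∃ φ : X → EuclideanSpace ℝ (Fin m),
    Topology.IsOpenEmbedding φ ∧ Convex ℝ (range φ) ∧
    ∀ x y z : X, x ≠ y → y ≠ z → x ≠ z →
      (dist x y + dist y z = dist x z ↔ φ y ∈ openSegment ℝ (φ x) (φ z))

/-- The regular polygon property: for every `n ≥ 3`, any two distinct points `A`, `B` are
adjacent vertices of a regular (totally equilateral) `n`-gon. -/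
def RegularPolygonProperty (X : Type) [MetricSpace X] : Prop :=
  ∀ n : ℕ, 3 ≤ n → ∀ A B : X, A ≠ B →
    ∃ P : ZMod n → X, Function.Injective P ∧ P 0 = A ∧ P 1 = B ∧
      ∀ i j h : ZMod n, dist (P i) (P j) = dist (P (i + h)) (P (j + h))

/-- `X` is isometric to a Euclidean space (of some dimension). -/
def IsEuclidean (X : Type) [MetricSpace X] : Prop :=
  ∃ n : ℕ, Nonempty (X ≃ᵢ EuclideanSpace ℝ (Fin n))

/-- `X` is isometric to the hyperbolic space of some dimension `n` and some constant curvature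
`-1/c^2`, written with the Beltrami-Klein model in the open unit ball. -/
def IsHyperbolic (X : Type) [MetricSpace X] : Prop :=
  ∃ (n : ℕ) (c : ℝ) (f : X → EuclideanSpace ℝ (Fin n)), 0 < c ∧
    BijOn f univ (Metric.ball 0 1) ∧
    ∀ x y : X, Real.cosh (dist x y / c) =
      (1 - inner ℝ (f x) (f y)) / (Real.sqrt (1 - ‖f x‖ ^ 2) * Real.sqrt (1 - ‖f y‖ ^ 2))

/-! ### Normed spaces all of whose vectors lie in Euclidean planes -/

section planes

variable {Z : Type} [NormedAddCommGroup Z] [NormedSpace ℝ Z]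

/-- If every vector lies in a Euclidean plane, the regular polygon property holds. -/
lemma polygon (hZ : ∀ x : Z, ∃ T : ℂ →ₗᵢ[ℝ] Z, x ∈ range T) : RegularPolygonProperty Z := by
  intro n hn A B hAB
  have : NeZero n := ⟨by omega⟩
  have : Fact (1 < n) := ⟨by omega⟩
  obtain ⟨T, z0, hTz0⟩ := hZ (B - A)
  have hz0ne : z0 ≠ 0 := by
    intro h0
    rw [h0, map_zero] at hTz0
    exact hAB (sub_eq_zero.1 hTz0.symm).symm
  have hinj := ZMod.injective_stdAddChar (N := n)
  have hχ1 : (1 : ℂ) - ZMod.stdAddChar (1 : ZMod n) ≠ 0 := by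
    intro h0
    have h1 : ZMod.stdAddChar (1 : ZMod n) = ZMod.stdAddChar (0 : ZMod n) := by
      rw [AddChar.map_zero_eq_one]
      exact (sub_eq_zero.1 h0).symm
    exact one_ne_zero (hinj h1)
  have hnorm : ∀ h : ZMod n, ‖(ZMod.stdAddChar h : ℂ)‖ = 1 := fun h => AddChar.norm_apply _ _
  refine ⟨fun j : ZMod n => A +
    T (z0 * ((1 - ZMod.stdAddChar j) / (1 - ZMod.stdAddChar (1 : ZMod n)))), ?_, ?_, ?_, ?_⟩
  · intro i j hij
    have h1 := T.injective (add_left_cancel hij)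
    have h6 := mul_left_cancel₀ hz0ne h1
    have h7 := (div_left_inj' hχ1).1 h6
    have h8 : ZMod.stdAddChar i = ZMod.stdAddChar j := sub_right_injective h7
    exact hinj h8
  · simp only [AddChar.map_zero_eq_one, sub_self, zero_div, mul_zero, map_zero, add_zero]
  · simp only [div_self hχ1, mul_one, hTz0, add_sub_cancel]
  · intro i j h
    simp only [dist_add_left, T.dist_map]
    rw [dist_eq_norm, dist_eq_norm]
    have e : ∀ p q : ℂ, z0 * ((1 - p) / (1 - ZMod.stdAddChar (1 : ZMod n))) -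
        z0 * ((1 - q) / (1 - ZMod.stdAddChar (1 : ZMod n))) =
        z0 * ((q - p) / (1 - ZMod.stdAddChar (1 : ZMod n))) := by
      intro p q
      ring
    rw [e, e, AddChar.map_add_eq_mul, AddChar.map_add_eq_mul, ← sub_mul]
    simp only [norm_mul, norm_div, hnorm, mul_one]

/-- There is no right triangle with sides `3, 4, 5` in a hyperbolic plane. -/
lemma cosh_ne {τ : ℝ} (hτ0 : 0 < τ) :
    Real.cosh (5 * τ) ≠ Real.cosh (3 * τ) * Real.cosh (4 * τ) := by
  intro s6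
  obtain ⟨C, hC⟩ : ∃ C, C = Real.cosh τ := ⟨_, rfl⟩
  have hS : Real.sinh τ ^ 2 = C ^ 2 - 1 := by rw [Real.sinh_sq, hC]
  have c2 : Real.cosh (2 * τ) = 2 * C ^ 2 - 1 := by
    rw [Real.cosh_two_mul, hS, ← hC]; ring
  have c3 : Real.cosh (3 * τ) = 4 * C ^ 3 - 3 * C := by
    rw [Real.cosh_three_mul, ← hC]
  have c4 : Real.cosh (4 * τ) = 2 * (2 * C ^ 2 - 1) ^ 2 - 1 := by
    rw [show (4 : ℝ) * τ = 2 * (2 * τ) by ring, Real.cosh_two_mul, Real.sinh_sq, c2]; ring
  have c5 : Real.cosh (5 * τ) = 2 * C * Real.cosh (4 * τ) - Real.cosh (3 * τ) := by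
    rw [show (5 : ℝ) * τ = 4 * τ + τ by ring, show (3 : ℝ) * τ = 4 * τ - τ by ring,
      Real.cosh_add, Real.cosh_sub, ← hC]
    ring
  rw [c5, c4, c3] at s6
  have hC1 : 1 < C := by rw [hC]; exact Real.one_lt_cosh.2 hτ0.ne'
  have h1 : 8 * C * (C ^ 2 - 1) ^ 2 * (4 * C ^ 2 - 1) = 0 := by linear_combination -s6
  have h3 : 0 < C ^ 2 - 1 := by nlinarith
  have h4 : 0 < 4 * C ^ 2 - 1 := by nlinarith
  have h5 : 0 < C := by linarith
  have h2 : 0 < 8 * C * (C ^ 2 - 1) ^ 2 * (4 * C ^ 2 - 1) := by positivity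
  linarith

/-- A space containing a Euclidean plane is not hyperbolic. -/
lemma not_hyperbolic (T : ℂ →ₗᵢ[ℝ] Z) : ¬ IsHyperbolic Z := by
  rintro ⟨n, c, f, hc, hf, hd⟩
  obtain ⟨a, ha⟩ : ∃ a : Z, a = T 3 := ⟨_, rfl⟩
  obtain ⟨b, hb⟩ : ∃ b : Z, b = T (-3) := ⟨_, rfl⟩
  obtain ⟨o, ho⟩ : ∃ o : Z, o = T 0 := ⟨_, rfl⟩
  obtain ⟨p, hp⟩ : ∃ p : Z, p = T (4 * Complex.I) := ⟨_, rfl⟩
  have hab : dist a b = 6 := by
    rw [ha, hb, T.dist_map, dist_eq_norm]
    norm_num
  have hao : dist a o = 3 := by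
    rw [ha, ho, T.dist_map, dist_eq_norm]
    norm_num
  have hob : dist b o = 3 := by
    rw [hb, ho, T.dist_map, dist_eq_norm]
    norm_num
  have hap : dist a p = 5 := by
    rw [ha, hp, T.dist_map, dist_eq_norm, Complex.norm_def, Complex.normSq_apply]
    simp
    rw [show (3 : ℝ) * 3 + 4 * 4 = 5 ^ 2 by norm_num]
    exact Real.sqrt_sq (by norm_num)
  have hbp : dist b p = 5 := by
    rw [hb, hp, T.dist_map, dist_eq_norm, Complex.norm_def, Complex.normSq_apply]
    simp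
    rw [show (3 : ℝ) * 3 + 4 * 4 = 5 ^ 2 by norm_num]
    exact Real.sqrt_sq (by norm_num)
  have hop : dist o p = 4 := by
    rw [ho, hp, T.dist_map, dist_eq_norm]
    simp
  have hlt : ∀ x : Z, 0 < 1 - ‖f x‖ ^ 2 := by
    intro x
    have h1 : f x ∈ Metric.ball (0 : EuclideanSpace ℝ (Fin n)) 1 := hf.mapsTo (mem_univ x)
    rw [mem_ball_zero_iff] at h1
    have h2 := norm_nonneg (f x)
    nlinarith
  obtain ⟨g, hg⟩ : ∃ g : Z → ℝ, g = fun x => 1 / Real.sqrt (1 - ‖f x‖ ^ 2) := ⟨_, rfl⟩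
  obtain ⟨F, hF⟩ : ∃ F : Z → EuclideanSpace ℝ (Fin n), F = fun x => g x • f x := ⟨_, rfl⟩
  have key : ∀ x y : Z, g x * g y - inner ℝ (F x) (F y) = Real.cosh (dist x y / c) := by
    intro x y
    rw [hF]
    simp only [inner_smul_left, inner_smul_right]
    rw [hd x y, hg]
    have h1 := Real.sqrt_pos.2 (hlt x)
    have h2 := Real.sqrt_pos.2 (hlt y)
    simp only [conj_trivial]
    field_simp
  obtain ⟨τ, hτ⟩ : ∃ τ, τ = 1 / c := ⟨_, rfl⟩
  have hτ0 : 0 < τ := by rw [hτ]; positivity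
  have k1 := key a a
  have k2 := key b b
  have k3 := key o o
  have k4 := key a b
  have k5 := key a o
  have k6 := key b o
  have k7 := key a p
  have k8 := key b p
  have k9 := key o p
  rw [dist_self, zero_div, Real.cosh_zero] at k1 k2 k3
  rw [hab] at k4
  rw [hao] at k5
  rw [hob] at k6
  rw [hap] at k7
  rw [hbp] at k8
  rw [hop] at k9
  obtain ⟨C3, hC3⟩ : ∃ C, C = Real.cosh (3 / c) := ⟨_, rfl⟩
  rw [← hC3] at k5 k6
  obtain ⟨w, hw⟩ : ∃ w, w = g a + g b - 2 * C3 * g o := ⟨_, rfl⟩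
  obtain ⟨W, hW⟩ : ∃ W, W = F a + F b - (2 * C3) • F o := ⟨_, rfl⟩
  have hC6 : Real.cosh (6 / c) = 2 * C3 ^ 2 - 1 := by
    rw [hC3, show (6 : ℝ) / c = 2 * (3 / c) by ring, Real.cosh_two_mul, Real.sinh_sq]
    ring
  have s1 : w * g o = inner ℝ W (F o) := by
    rw [hW, inner_sub_left, inner_add_left, inner_smul_left, hw]
    simp only [conj_trivial]
    linear_combination k5 + k6 - 2 * C3 * k3
  have s2 : w ^ 2 = ‖W‖ ^ 2 := by
    rw [← real_inner_self_eq_norm_sq, hW]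
    simp only [inner_sub_left, inner_add_left, inner_smul_left, inner_sub_right, inner_add_right,
      inner_smul_right, conj_trivial]
    rw [real_inner_comm (F a) (F b), real_inner_comm (F a) (F o), real_inner_comm (F b) (F o), hw]
    linear_combination k1 + k2 + 2 * (k4.trans hC6) + 4 * C3 ^ 2 * k3 - 4 * C3 * k5 - 4 * C3 * k6
  have s3 : w ^ 2 * g o ^ 2 ≤ w ^ 2 * (g o ^ 2 - 1) := by
    have h1 : (inner ℝ W (F o)) ^ 2 ≤ (‖W‖ * ‖F o‖) ^ 2 := by
      rw [sq_le_sq]
      rw [abs_of_nonneg (mul_nonneg (norm_nonneg W) (norm_nonneg (F o)))]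
      exact abs_real_inner_le_norm _ _
    have h2 : ‖F o‖ ^ 2 = g o ^ 2 - 1 := by
      rw [← real_inner_self_eq_norm_sq]
      linarith
    calc w ^ 2 * g o ^ 2 = (inner ℝ W (F o)) ^ 2 := by rw [← s1]; ring
      _ ≤ (‖W‖ * ‖F o‖) ^ 2 := h1
      _ = w ^ 2 * (g o ^ 2 - 1) := by rw [mul_pow, h2, s2]
  have s4 : w = 0 := by
    have : w ^ 2 ≤ 0 := by nlinarith
    exact pow_eq_zero_iff (two_ne_zero) |>.1 (le_antisymm this (sq_nonneg _))
  have s5 : W = 0 := by
    rw [s4] at s2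
    have : ‖W‖ = 0 := by
      have := s2.symm
      simpa using this
    exact norm_eq_zero.1 this
  have s6 : 2 * Real.cosh (5 / c) = 2 * C3 * Real.cosh (4 / c) := by
    have h1 : w * g p - inner ℝ W (F p) = 0 := by rw [s4, s5]; simp
    rw [hW, inner_sub_left, inner_add_left, inner_smul_left, hw] at h1
    simp only [conj_trivial] at h1
    linear_combination -k7 - k8 + 2 * C3 * k9 + h1
  have t3 : (3 : ℝ) / c = 3 * τ := by rw [hτ]; ring
  have t4 : (4 : ℝ) / c = 4 * τ := by rw [hτ]; ring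
  have t5 : (5 : ℝ) / c = 5 * τ := by rw [hτ]; ring
  rw [hC3, t3, t4, t5] at s6
  exact cosh_ne hτ0 (by linarith)

/-- A finite-dimensional strictly convex normed space is of straight type. -/
lemma straight [FiniteDimensional ℝ Z] [StrictConvexSpace ℝ Z] :
    IsStraightProjectiveMetric (Module.finrank ℝ Z) Z := by
  have hfr : Module.finrank ℝ Z =
      Module.finrank ℝ (EuclideanSpace ℝ (Fin (Module.finrank ℝ Z))) := by simp
  obtain ⟨L⟩ : Nonempty (Z ≃L[ℝ] EuclideanSpace ℝ (Fin (Module.finrank ℝ Z))) :=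
    ⟨ContinuousLinearEquiv.ofFinrankEq hfr⟩
  refine ⟨⟨0⟩, L, L.toHomeomorph.isOpenEmbedding, ?_, ?_⟩
  · have : range L = univ := L.surjective.range_eq
    rw [this]
    exact convex_univ
  · intro x y z hxy hyz _
    have h1 : dist x y + dist y z = dist x z ↔ y ∈ openSegment ℝ x z := by
      rw [dist_add_dist_eq_iff, ← mem_segment_iff_wbtw]
      exact ⟨fun h => mem_openSegment_of_ne_left_right hxy hyz.symm h,
        fun h => openSegment_subset_segment ℝ x z h⟩
    rw [h1]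
    constructor
    · rintro ⟨s, t, hs, ht, hst, e⟩
      exact ⟨s, t, hs, ht, hst, by simp only [← e, map_add, map_smul]⟩
    · rintro ⟨s, t, hs, ht, hst, e⟩
      refine ⟨s, t, hs, ht, hst, ?_⟩
      apply L.injective
      simp only [← e, map_add, map_smul]

/-- The parallelogram law. -/
def Par (Z : Type) [NormedAddCommGroup Z] : Prop :=
  ∀ x y : Z, ‖x + y‖ * ‖x + y‖ + ‖x - y‖ * ‖x - y‖ = 2 * (‖x‖ * ‖x‖ + ‖y‖ * ‖y‖)

lemma euclidean_iff [FiniteDimensional ℝ Z] : IsEuclidean Z ↔ Par Z := by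
  constructor
  · rintro ⟨n, ⟨f⟩⟩ x y
    have h := parallelogram_law_with_norm ℝ (f.toRealLinearIsometryEquiv x)
      (f.toRealLinearIsometryEquiv y)
    rw [← map_add, ← map_sub] at h
    simp only [LinearIsometryEquiv.norm_map] at h
    linear_combination h
  · intro h
    let _ : InnerProductSpace ℝ Z := InnerProductSpace.ofNorm ℝ h
    exact ⟨Module.finrank ℝ Z, ⟨(stdOrthonormalBasis ℝ Z).repr.toIsometryEquiv⟩⟩

end planes

/-! ### The sum of a line and a strictly convex space -/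

section sum

variable (V : Type) [NormedAddCommGroup V] [NormedSpace ℝ V]

/-- The space `ℝ ⊕₂ V`: pairs `(s, v)` with the norm `√(s² + ‖v‖²)`. -/
abbrev LineSum : Type := WithLp 2 (ℝ × V)

variable {V}

omit [NormedSpace ℝ V] in
lemma norm_sq (x : LineSum V) : ‖x‖ ^ 2 = x.fst ^ 2 + ‖x.snd‖ ^ 2 := by
  rw [WithLp.prod_norm_sq_eq_of_L2, Real.norm_eq_abs, sq_abs]

instance strictConvex [StrictConvexSpace ℝ V] : StrictConvexSpace ℝ (LineSum V) := by
  refine StrictConvexSpace.of_norm_add_ne_two ?_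
  intro x y hx hy hxy h
  apply hxy
  have e1 := norm_sq x
  have e2 := norm_sq y
  have e3 := norm_sq (x + y)
  rw [hx] at e1
  rw [hy] at e2
  rw [h] at e3
  simp only [WithLp.add_fst, WithLp.add_snd] at e3
  have h1 := norm_add_le x.snd y.snd
  have h0 := norm_nonneg (x.snd + y.snd)
  have hx0 := norm_nonneg x.snd
  have hy0 := norm_nonneg y.snd
  have h2 : ‖x.snd + y.snd‖ ^ 2 ≤ (‖x.snd‖ + ‖y.snd‖) ^ 2 := pow_le_pow_left₀ h0 h1 2
  have h3 : (x.fst - y.fst) ^ 2 + (‖x.snd‖ - ‖y.snd‖) ^ 2 +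
      ((‖x.snd‖ + ‖y.snd‖) ^ 2 - ‖x.snd + y.snd‖ ^ 2) = 0 := by nlinarith
  have h4 : (x.fst - y.fst) ^ 2 = 0 := by
    nlinarith [sq_nonneg (x.fst - y.fst), sq_nonneg (‖x.snd‖ - ‖y.snd‖)]
  have h5 : (‖x.snd‖ - ‖y.snd‖) ^ 2 = 0 := by
    nlinarith [sq_nonneg (x.fst - y.fst), sq_nonneg (‖x.snd‖ - ‖y.snd‖)]
  have h6 : ‖x.snd + y.snd‖ ^ 2 = (‖x.snd‖ + ‖y.snd‖) ^ 2 := by
    nlinarith [sq_nonneg (x.fst - y.fst), sq_nonneg (‖x.snd‖ - ‖y.snd‖)]
  have h7 : x.fst = y.fst := by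
    have := pow_eq_zero_iff (two_ne_zero) |>.1 h4
    linarith
  have h8 : ‖x.snd‖ = ‖y.snd‖ := by
    have := pow_eq_zero_iff (two_ne_zero) |>.1 h5
    linarith
  have h9 : ‖x.snd + y.snd‖ = ‖x.snd‖ + ‖y.snd‖ :=
    (pow_left_inj₀ h0 (add_nonneg hx0 hy0) two_ne_zero).1 h6
  have h10 : x.snd = y.snd := (sameRay_iff_of_norm_eq h8).1 (sameRay_iff_norm_add.2 h9)
  exact (WithLp.ofLp_injective 2) (Prod.ext h7 h10)

/-- The Euclidean plane spanned by the line and the unit vector `u`. -/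
noncomputable def plane (u : V) (hu : ‖u‖ = 1) : ℂ →ₗᵢ[ℝ] LineSum V where
  toFun z := WithLp.toLp 2 (z.re, z.im • u)
  map_add' z w := by
    rw [← WithLp.toLp_add]
    congr 1
    ext <;> simp [add_smul]
  map_smul' r z := by
    rw [RingHom.id_apply, ← WithLp.toLp_smul]
    congr 1
    ext <;> simp [mul_smul]
  norm_map' z := by
    have h1 : ‖(WithLp.toLp 2 (z.re, z.im • u) : LineSum V)‖ ^ 2 = ‖z‖ ^ 2 := by
      rw [norm_sq, ← Complex.normSq_eq_norm_sq, Complex.normSq_apply]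
      change z.re ^ 2 + ‖z.im • u‖ ^ 2 = _
      rw [norm_smul, hu, mul_one, Real.norm_eq_abs, sq_abs]
      ring
    exact (pow_left_inj₀ (norm_nonneg _) (norm_nonneg _) two_ne_zero).1 h1

lemma exists_plane [Nontrivial V] (x : LineSum V) : ∃ T : ℂ →ₗᵢ[ℝ] LineSum V, x ∈ range T := by
  obtain ⟨u, t, hu, ht⟩ : ∃ (u : V) (t : ℝ), ‖u‖ = 1 ∧ x.snd = t • u := by
    by_cases hv : x.snd = 0
    · obtain ⟨w, hw⟩ := exists_ne (0 : V)
      have hp : 0 < ‖w‖ := norm_pos_iff.2 hw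
      refine ⟨(1 / ‖w‖) • w, 0, ?_, by rw [hv, zero_smul]⟩
      rw [norm_smul, Real.norm_eq_abs, abs_of_pos (by positivity), one_div_mul_cancel hp.ne']
    · have hp : 0 < ‖x.snd‖ := norm_pos_iff.2 hv
      refine ⟨(1 / ‖x.snd‖) • x.snd, ‖x.snd‖, ?_, ?_⟩
      · rw [norm_smul, Real.norm_eq_abs, abs_of_pos (by positivity), one_div_mul_cancel hp.ne']
      · rw [smul_smul, mul_one_div_cancel hp.ne', one_smul]
  refine ⟨plane u hu, ⟨x.fst, t⟩, ?_⟩
  change WithLp.toLp 2 (x.fst, t • u) = x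
  rw [← ht]
  rfl

omit [NormedSpace ℝ V] in
lemma par_iff : Par (LineSum V) ↔ Par V := by
  have sq : ∀ {W : Type} [NormedAddCommGroup W] (w : W), ‖w‖ * ‖w‖ = ‖w‖ ^ 2 := fun w => by ring
  constructor
  · intro h x y
    have h1 := h (WithLp.toLp 2 (0, x)) (WithLp.toLp 2 (0, y))
    simp only [sq, norm_sq] at h1 ⊢
    simpa using h1
  · intro h x y
    have h1 := h x.snd y.snd
    simp only [sq, norm_sq] at h1 ⊢
    simp only [WithLp.add_fst, WithLp.add_snd, WithLp.sub_fst, WithLp.sub_snd]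
    linear_combination h1

lemma finrank_sum [FiniteDimensional ℝ V] :
    Module.finrank ℝ (LineSum V) = Module.finrank ℝ V + 1 := by
  rw [(WithLp.linearEquiv 2 ℝ (ℝ × V)).finrank_eq, Module.finrank_prod, Module.finrank_self,
    add_comm]

omit [NormedSpace ℝ V] in
lemma isometry_snd : Isometry (fun v : V => (WithLp.toLp 2 ((0 : ℝ), v) : LineSum V)) := by
  refine Isometry.of_dist_eq fun v w => ?_
  rw [dist_eq_norm, dist_eq_norm]
  refine (pow_left_inj₀ (norm_nonneg _) (norm_nonneg _) two_ne_zero).1 ?_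
  rw [norm_sq]
  simp

end sum

/-! ### Cancellation of the line -/

lemma cancel_aux {V W : Type} [NormedAddCommGroup V] [NormedSpace ℝ V]
    [NormedAddCommGroup W] [NormedSpace ℝ W] (T : LineSum V ≃ₗᵢ[ℝ] LineSum W) :
    Nonempty (V →ₗᵢ[ℝ] W) := by
  -- the functional `φ z = (T z).fst`
  obtain ⟨φ, hφ⟩ : ∃ φ : LineSum V →ₗ[ℝ] ℝ, ∀ z, φ z = (T z).fst :=
    ⟨{ toFun := fun z => (T z).fst
       map_add' := fun x y => by simp
       map_smul' := fun r x => by simp }, fun z => rfl⟩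
  -- `f` is mapped on the unit vector of the line
  obtain ⟨f, hf⟩ : ∃ f : LineSum V, T f = WithLp.toLp 2 ((1 : ℝ), (0 : W)) :=
    ⟨T.symm _, T.apply_symm_apply _⟩
  have hφf : φ f = 1 := by rw [hφ, hf]; rfl
  have hdec : ∀ z : LineSum V, ‖z‖ ^ 2 = φ z ^ 2 + ‖z - φ z • f‖ ^ 2 := by
    intro z
    rw [← T.norm_map z, ← T.norm_map (z - φ z • f), norm_sq (T z), norm_sq (T (z - φ z • f)),
      map_sub, map_smul, hf, hφ]
    simp
  have hfn : f.fst ^ 2 + ‖f.snd‖ ^ 2 = 1 := by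
    have h1 := hdec f
    rw [hφf, one_smul, sub_self, norm_zero, norm_sq f] at h1
    linarith
  have hle : ∀ z : LineSum V, φ z ^ 2 ≤ ‖z‖ ^ 2 := by
    intro z
    have h1 := hdec z
    nlinarith [sq_nonneg ‖z - φ z • f‖]
  -- the vectors of `V`
  obtain ⟨J, hJ⟩ : ∃ J : V →ₗ[ℝ] LineSum V, ∀ v, J v = WithLp.toLp 2 ((0 : ℝ), v) :=
    ⟨(WithLp.linearEquiv 2 ℝ (ℝ × V)).symm.toLinearMap ∘ₗ LinearMap.inr ℝ ℝ V, fun v => rfl⟩
  obtain ⟨e, he⟩ : ∃ e : LineSum V, e = WithLp.toLp 2 ((1 : ℝ), (0 : V)) := ⟨_, rfl⟩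
  have hnorm : ∀ (a : ℝ) (v : V), ‖a • e + J v‖ ^ 2 = a ^ 2 + ‖v‖ ^ 2 := by
    intro a v
    rw [norm_sq, he, hJ]
    simp
  have hfe : f = f.fst • e + J f.snd := by
    rw [he, hJ]
    apply WithLp.ofLp_injective 2
    ext <;> simp
  obtain ⟨c, hc⟩ : ∃ c, c = f.fst := ⟨_, rfl⟩
  by_cases hv0 : f.snd = 0
  · -- the lines correspond to each other
    rw [← hc, hv0, map_zero, add_zero] at hfe
    have hc1 : c ^ 2 = 1 := by rw [← hc, hv0, norm_zero] at hfn; linarith
    have hφJ : ∀ v, φ (J v) = 0 := by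
      intro v
      have h1 : ∀ r : ℝ, (r + φ (J v)) ^ 2 ≤ r ^ 2 + ‖v‖ ^ 2 := by
        intro r
        have h2 := hle (r • f + J v)
        rw [map_add, map_smul, hφf, smul_eq_mul, mul_one, hfe, smul_smul, hnorm] at h2
        have h3 : (r * c) ^ 2 = r ^ 2 := by rw [mul_pow, hc1, mul_one]
        rw [h3] at h2
        exact h2
      by_contra hne
      have h2 := h1 ((‖v‖ ^ 2 + 1) / φ (J v))
      have h3 : (‖v‖ ^ 2 + 1) / φ (J v) * φ (J v) = ‖v‖ ^ 2 + 1 := div_mul_cancel₀ _ hne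
      nlinarith [sq_nonneg (φ (J v)), sq_nonneg ‖v‖]
    refine ⟨{ toFun := fun v => (T (J v)).snd
              map_add' := fun v w => by simp
              map_smul' := fun r v => by simp
              norm_map' := fun v => ?_ }⟩
    have h1 : ‖T (J v)‖ ^ 2 = ‖v‖ ^ 2 := by
      rw [T.norm_map]
      have := hnorm 0 v
      rw [zero_smul, zero_add] at this
      rw [this]
      ring
    rw [norm_sq, ← hφ, hφJ] at h1
    refine (pow_left_inj₀ (norm_nonneg _) (norm_nonneg _) two_ne_zero).1 ?_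
    change ‖(T (J v)).snd‖ ^ 2 = ‖v‖ ^ 2
    linarith
  · obtain ⟨s, hs⟩ : ∃ s, s = ‖f.snd‖ := ⟨_, rfl⟩
    have hs0 : 0 < s := by rw [hs]; exact norm_pos_iff.2 hv0
    rw [← hc, ← hs] at hfn
    obtain ⟨v1, hv1⟩ : ∃ v1 : V, v1 = s⁻¹ • f.snd := ⟨_, rfl⟩
    have hv1n : ‖v1‖ = 1 := by
      rw [hv1, norm_smul, Real.norm_eq_abs, abs_of_pos (inv_pos.2 hs0), ← hs,
        inv_mul_cancel₀ hs0.ne']
    have hsv : f.snd = s • v1 := by rw [hv1, smul_smul, mul_inv_cancel₀ hs0.ne', one_smul]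
    rw [← hc, hsv, map_smul] at hfe
    -- the orthogonal vector `f'`
    obtain ⟨f', hf'⟩ : ∃ f' : LineSum V, f' = (-s) • e + c • J v1 := ⟨_, rfl⟩
    have hφf' : φ f' = 0 := by
      have h1 : ∀ r : ℝ, (1 + r * φ f') ^ 2 ≤ 1 + r ^ 2 := by
        intro r
        have h2 := hle (f + r • f')
        have h3 : f + r • f' = (c - r * s) • e + J ((s + r * c) • v1) := by
          rw [hf', map_smul]
          nth_rewrite 1 [hfe]
          module
        rw [map_add, map_smul, hφf, smul_eq_mul, h3, hnorm, norm_smul, hv1n, mul_one,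
          Real.norm_eq_abs, sq_abs] at h2
        have h4 : (c - r * s) ^ 2 + (s + r * c) ^ 2 = 1 + r ^ 2 := by
          linear_combination (1 + r ^ 2) * hfn
        rw [h4] at h2
        exact h2
      have h2 := h1 (φ f')
      nlinarith [sq_nonneg (φ f'), sq_nonneg (φ f' ^ 2)]
    have he1 : e = c • f - s • f' := by
      rw [hf']
      nth_rewrite 1 [hfe]
      have : c • (c • e + s • J v1) - s • (-s • e + c • J v1) = (c ^ 2 + s ^ 2) • e := by module
      rw [this, hfn, one_smul]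
    have hv1' : J v1 = s • f + c • f' := by
      rw [hf']
      nth_rewrite 1 [hfe]
      have : s • (c • e + s • J v1) + c • (-s • e + c • J v1) = (c ^ 2 + s ^ 2) • J v1 := by module
      rw [this, hfn, one_smul]
    have hφv1 : φ (J v1) = s := by
      rw [hv1', map_add, map_smul, map_smul, hφf, hφf']
      simp
    -- `V` is the sum of the line of `v1` and of the kernel of `φ`
    have hN : ∀ h : V, φ (J h) = 0 → ∀ t : ℝ, ‖t • v1 + h‖ ^ 2 = t ^ 2 + ‖h‖ ^ 2 := by
      intro h hh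
      have hstep : ∀ t : ℝ, ‖t • v1 + h‖ ^ 2 - t ^ 2 =
          ‖(c ^ 2 * t) • v1 + h‖ ^ 2 - (c ^ 2 * t) ^ 2 := by
        intro t
        have h1 := hdec (J (t • v1 + h))
        have h2 : φ (J (t • v1 + h)) = t * s := by
          rw [map_add, map_smul, map_add, map_smul, hφv1, hh]
          simp
        have h3 : J (t • v1 + h) - (t * s) • f = (-(t * s * c)) • e + J ((c ^ 2 * t) • v1 + h) := by
          have h4 : t = (c ^ 2 + s ^ 2) * t := by rw [hfn, one_mul]
          nth_rewrite 1 [hfe]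
          nth_rewrite 1 [h4]
          simp only [map_add, map_smul]
          module
        have h5 := hnorm 0 (t • v1 + h)
        rw [zero_smul, zero_add] at h5
        rw [h2, h3, hnorm, h5] at h1
        have h6 : s ^ 2 = 1 - c ^ 2 := by linarith
        have h7 : (t * s) ^ 2 = t ^ 2 * (1 - c ^ 2) := by rw [mul_pow, h6]
        have h8 : (-(t * s * c)) ^ 2 = t ^ 2 * (1 - c ^ 2) * c ^ 2 := by
          rw [neg_sq, mul_pow, mul_pow, h6]
        rw [h7, h8] at h1
        linear_combination h1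
      intro t
      have hiter : ∀ n : ℕ, ‖t • v1 + h‖ ^ 2 - t ^ 2 =
          ‖((c ^ 2) ^ n * t) • v1 + h‖ ^ 2 - ((c ^ 2) ^ n * t) ^ 2 := by
        intro n
        induction n with
        | zero => simp
        | succ n ih =>
          rw [ih, hstep, ← mul_assoc, ← pow_succ']
      have hc2 : c ^ 2 < 1 := by
        have : 0 < s ^ 2 := by positivity
        linarith
      have hlim : Filter.Tendsto (fun n : ℕ => (c ^ 2) ^ n * t) Filter.atTop (nhds 0) := by
        have := (tendsto_pow_atTop_nhds_zero_of_lt_one (sq_nonneg c) hc2).mul_const t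
        rwa [zero_mul] at this
      have hcont : Continuous fun r : ℝ => ‖r • v1 + h‖ ^ 2 - r ^ 2 := by fun_prop
      have h1 := (hcont.tendsto 0).comp hlim
      have h2 : (fun r : ℝ => ‖r • v1 + h‖ ^ 2 - r ^ 2) ∘ (fun n : ℕ => (c ^ 2) ^ n * t) =
          fun _ => ‖t • v1 + h‖ ^ 2 - t ^ 2 := by
        funext n
        exact (hiter n).symm
      rw [h2] at h1
      have h3 := tendsto_nhds_unique h1 tendsto_const_nhds
      simp only [zero_smul, zero_add] at h3
      linarith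
    -- the isometry
    obtain ⟨τ, hτ⟩ : ∃ τ : V →ₗ[ℝ] ℝ, ∀ v, τ v = s⁻¹ * φ (J v) :=
      ⟨s⁻¹ • (φ ∘ₗ J), fun v => rfl⟩
    have hker : ∀ v, φ (J (v - τ v • v1)) = 0 := by
      intro v
      rw [map_sub, map_smul, map_sub, map_smul, hφv1, smul_eq_mul, hτ]
      field_simp
      ring
    obtain ⟨G, hG⟩ : ∃ G : V →ₗ[ℝ] LineSum V, ∀ v, G v = τ v • f' + J (v - τ v • v1) :=
      ⟨{ toFun := fun v => τ v • f' + J (v - τ v • v1)
         map_add' := fun v w => by simp only [map_add, map_sub, map_smul]; module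
         map_smul' := fun r v => by
           simp only [map_sub, map_smul, smul_eq_mul, RingHom.id_apply]; module },
        fun v => rfl⟩
    have hGφ : ∀ v, φ (G v) = 0 := by
      intro v
      rw [hG, map_add, map_smul, hφf', hker]
      simp
    have hGn : ∀ v, ‖G v‖ ^ 2 = ‖v‖ ^ 2 := by
      intro v
      have h1 : G v = (-(τ v * s)) • e + J ((c * τ v) • v1 + (v - τ v • v1)) := by
        rw [hG, hf']
        simp only [map_add, map_smul]
        module
      rw [h1, hnorm, hN _ (hker v)]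
      have h2 : ‖v‖ ^ 2 = τ v ^ 2 + ‖v - τ v • v1‖ ^ 2 := by
        rw [← hN _ (hker v), add_sub_cancel]
      rw [h2]
      linear_combination (τ v ^ 2) * hfn
    refine ⟨{ toFun := fun v => (T (G v)).snd
              map_add' := fun v w => by simp
              map_smul' := fun r v => by simp
              norm_map' := fun v => ?_ }⟩
    have h1 : ‖T (G v)‖ ^ 2 = ‖v‖ ^ 2 := by rw [T.norm_map, hGn]
    rw [norm_sq, ← hφ, hGφ] at h1
    refine (pow_left_inj₀ (norm_nonneg _) (norm_nonneg _) two_ne_zero).1 ?_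
    change ‖(T (G v)).snd‖ ^ 2 = ‖v‖ ^ 2
    linarith

lemma cancel {V W : Type} [NormedAddCommGroup V] [NormedSpace ℝ V] [FiniteDimensional ℝ V]
    [NormedAddCommGroup W] [NormedSpace ℝ W] [FiniteDimensional ℝ W] :
    Nonempty (LineSum V ≃ᵢ LineSum W) ↔ Nonempty (V ≃ᵢ W) := by
  constructor
  · rintro ⟨f⟩
    obtain ⟨U⟩ := cancel_aux f.toRealLinearIsometryEquiv
    have h1 : Module.finrank ℝ (LineSum V) = Module.finrank ℝ (LineSum W) :=
      f.toRealLinearIsometryEquiv.toLinearEquiv.finrank_eq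
    rw [finrank_sum, finrank_sum] at h1
    exact ⟨(U.toLinearIsometryEquiv (by omega)).toIsometryEquiv⟩
  · rintro ⟨g⟩
    obtain ⟨L⟩ : Nonempty (V ≃ₗᵢ[ℝ] W) := ⟨g.toRealLinearIsometryEquiv⟩
    refine ⟨IsometryEquiv.mk' (fun x => WithLp.toLp 2 (x.fst, L x.snd))
      (fun x => WithLp.toLp 2 (x.fst, L.symm x.snd)) (fun x => ?_) ?_⟩
    · apply WithLp.ofLp_injective 2
      ext <;> simp
    · refine Isometry.of_dist_eq fun x y => ?_
      rw [dist_eq_norm, dist_eq_norm]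
      refine (pow_left_inj₀ (norm_nonneg _) (norm_nonneg _) two_ne_zero).1 ?_
      rw [norm_sq, norm_sq]
      change (x.fst - y.fst) ^ 2 + ‖L x.snd - L y.snd‖ ^ 2 =
        (x.fst - y.fst) ^ 2 + ‖x.snd - y.snd‖ ^ 2
      rw [← map_sub, L.norm_map]

/-! ### A family of strictly convex spaces which are not Euclidean -/

/-- The space `ℝ^(k+2)`, to be normed by `‖v‖ + t |v 0|`. -/
def NE (k : ℕ) (_ : ℝ) : Type := EuclideanSpace ℝ (Fin (k + 2))

section family

variable (k : ℕ) (t : ℝ)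

noncomputable instance : AddCommGroup (NE k t) :=
  inferInstanceAs (AddCommGroup (EuclideanSpace ℝ (Fin (k + 2))))

noncomputable instance : Module ℝ (NE k t) :=
  inferInstanceAs (Module ℝ (EuclideanSpace ℝ (Fin (k + 2))))

instance : Module.Finite ℝ (NE k t) :=
  inferInstanceAs (Module.Finite ℝ (EuclideanSpace ℝ (Fin (k + 2))))

/-- the identity -/
noncomputable def toE : NE k t →ₗ[ℝ] EuclideanSpace ℝ (Fin (k + 2)) := LinearMap.id

/-- the map `v ↦ (v, t v 0)` -/
noncomputable def graph : NE k t →ₗ[ℝ] WithLp 1 (EuclideanSpace ℝ (Fin (k + 2)) × ℝ) :=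
  (WithLp.linearEquiv 1 ℝ (EuclideanSpace ℝ (Fin (k + 2)) × ℝ)).symm.toLinearMap ∘ₗ
    ((toE k t).prod (t • ((EuclideanSpace.proj (0 : Fin (k + 2))).toLinearMap ∘ₗ toE k t)))

lemma graph_injective : Function.Injective (graph k t) := by
  intro v w h
  exact congrArg (fun p : WithLp 1 (EuclideanSpace ℝ (Fin (k + 2)) × ℝ) => p.fst) h

noncomputable instance : NormedAddCommGroup (NE k t) :=
  NormedAddCommGroup.induced (NE k t) (WithLp 1 (EuclideanSpace ℝ (Fin (k + 2)) × ℝ)) (graph k t)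
    (graph_injective k t)

noncomputable instance : NormedSpace ℝ (NE k t) :=
  NormedSpace.induced ℝ (NE k t) (WithLp 1 (EuclideanSpace ℝ (Fin (k + 2)) × ℝ)) (graph k t)

variable {k t}

lemma norm_NE (v : NE k t) : ‖v‖ = ‖toE k t v‖ + |t| * |toE k t v 0| := by
  change ‖graph k t v‖ = _
  rw [WithLp.prod_norm_eq_of_L1, ← abs_mul]
  rfl

variable (k t) in
instance : StrictConvexSpace ℝ (NE k t) := by
  refine StrictConvexSpace.of_norm_add_ne_two ?_
  intro x y hx hy hxy h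
  rw [norm_NE] at hx hy h
  have h1 := norm_add_le (toE k t x) (toE k t y)
  have h2 := mul_le_mul_of_nonneg_left (abs_add_le (toE k t x 0) (toE k t y 0)) (abs_nonneg t)
  rw [map_add] at h
  have h3 : (toE k t x + toE k t y) 0 = toE k t x 0 + toE k t y 0 := rfl
  rw [h3] at h
  have h4 : ‖toE k t x + toE k t y‖ = ‖toE k t x‖ + ‖toE k t y‖ := by linarith
  have h5 : SameRay ℝ (toE k t x) (toE k t y) := sameRay_iff_norm_add.2 h4
  have hne : toE k t x ≠ 0 := by
    intro h0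
    rw [h0] at hx
    simp at hx
  obtain ⟨r, hr0, hr⟩ := h5.exists_nonneg_left hne
  rw [← hr, norm_smul, Real.norm_eq_abs, abs_of_nonneg hr0] at hy
  have h6 : (r • toE k t x) 0 = r * toE k t x 0 := rfl
  rw [h6, abs_mul, abs_of_nonneg hr0] at hy
  have h7 : r = 1 := by
    have : r * (‖toE k t x‖ + |t| * |toE k t x 0|) = 1 := by linarith
    rwa [hx, mul_one] at this
  apply hxy
  rw [h7, one_smul] at hr
  exact hr

lemma abs_le_norm_E (v : EuclideanSpace ℝ (Fin (k + 2))) : |v 0| ≤ ‖v‖ := by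
  have := PiLp.norm_apply_le v 0
  rwa [Real.norm_eq_abs] at this

/-- The two unit vectors. -/
lemma norm_ab (c : ℝ) :
    ‖(EuclideanSpace.single 1 1 : EuclideanSpace ℝ (Fin (k + 2))) +
        c • (EuclideanSpace.single 0 1 : EuclideanSpace ℝ (Fin (k + 2)))‖ =
      Real.sqrt (1 + c ^ 2) := by
  rw [← Real.sqrt_sq (norm_nonneg _)]
  congr 1
  rw [@norm_add_sq_real, norm_smul, inner_smul_right, EuclideanSpace.inner_single_left]
  simp

/-- the vector `e₁` -/
noncomputable def b1 : NE k t := (EuclideanSpace.single 1 1 : EuclideanSpace ℝ (Fin (k + 2)))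

/-- the vector `e₀` -/
noncomputable def b0 : NE k t := (EuclideanSpace.single 0 1 : EuclideanSpace ℝ (Fin (k + 2)))

lemma norm_b (c : ℝ) : ‖(b1 : NE k t) + c • b0‖ = Real.sqrt (1 + c ^ 2) + |t| * |c| := by
  rw [norm_NE, map_add, map_smul]
  change ‖(EuclideanSpace.single 1 1 : EuclideanSpace ℝ (Fin (k + 2))) +
    c • (EuclideanSpace.single 0 1 : EuclideanSpace ℝ (Fin (k + 2)))‖ +
    |t| * |((EuclideanSpace.single 1 1 : EuclideanSpace ℝ (Fin (k + 2))) +
    c • (EuclideanSpace.single 0 1 : EuclideanSpace ℝ (Fin (k + 2)))) 0| = _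
  rw [norm_ab]
  simp

lemma norm_b1 : ‖(b1 : NE k t)‖ = 1 := by
  have := norm_b (k := k) (t := t) 0
  rw [zero_smul, add_zero] at this
  rw [this]
  simp

lemma norm_b0 : ‖(b0 : NE k t)‖ = 1 + |t| := by
  rw [norm_NE]
  change ‖(EuclideanSpace.single 0 1 : EuclideanSpace ℝ (Fin (k + 2)))‖ +
    |t| * |(EuclideanSpace.single 0 1 : EuclideanSpace ℝ (Fin (k + 2))) 0| = _
  simp

lemma not_par_NE (ht : 0 < t) : ¬ Par (NE k t) := by
  intro h
  have h1 := h b1 b0
  have e1 := norm_b (k := k) (t := t) 1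
  have e2 := norm_b (k := k) (t := t) (-1)
  rw [one_smul] at e1
  rw [neg_one_smul, ← sub_eq_add_neg] at e2
  rw [e1, e2, norm_b1, norm_b0] at h1
  rw [abs_of_pos ht, abs_one, abs_neg, abs_one] at h1
  have h2 : Real.sqrt (1 + (1 : ℝ) ^ 2) ^ 2 = 2 := by
    rw [Real.sq_sqrt (by norm_num)]; norm_num
  have h3 : Real.sqrt (1 + (-1 : ℝ) ^ 2) = Real.sqrt (1 + (1 : ℝ) ^ 2) := by norm_num
  rw [h3] at h1
  obtain ⟨q, hq⟩ : ∃ q, q = Real.sqrt (1 + (1 : ℝ) ^ 2) := ⟨_, rfl⟩
  rw [← hq] at h1 h2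
  have h4 : t * (q - 1) = 0 := by nlinarith
  rcases mul_eq_zero.1 h4 with h5 | h5
  · linarith
  · have : q = 1 := by linarith
    rw [this] at h2
    norm_num at h2

variable (k t) in
lemma finrank_NE : Module.finrank ℝ (NE k t) = k + 2 := by
  change Module.finrank ℝ (EuclideanSpace ℝ (Fin (k + 2))) = k + 2
  simp

variable (k t) in
instance : Nontrivial (NE k t) :=
  Module.nontrivial_of_finrank_pos (R := ℝ) (by rw [finrank_NE]; omega)

end family

/-! ### The spaces of the family are pairwise non-isometric -/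

/-- `r` is the limit of `(‖y + s v‖ + ‖y - s v‖ - 2) / s`, `s → 0+`, for some unit vectors. -/
def Corner (V : Type) [NormedAddCommGroup V] [NormedSpace ℝ V] (r : ℝ) : Prop :=
  ∃ y v : V, ‖y‖ = 1 ∧ ‖v‖ = 1 ∧
    Filter.Tendsto (fun s : ℝ => (‖y + s • v‖ + ‖y - s • v‖ - 2) / s) (nhdsWithin 0 (Ioi 0))
      (nhds r)

lemma Corner.map {V W : Type} [NormedAddCommGroup V] [NormedSpace ℝ V]
    [NormedAddCommGroup W] [NormedSpace ℝ W] (L : V ≃ₗᵢ[ℝ] W) {r : ℝ} (h : Corner V r) :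
    Corner W r := by
  obtain ⟨y, v, hy, hv, hlim⟩ := h
  refine ⟨L y, L v, by rw [L.norm_map, hy], by rw [L.norm_map, hv], ?_⟩
  have : (fun s : ℝ => (‖L y + s • L v‖ + ‖L y - s • L v‖ - 2) / s) =
      fun s : ℝ => (‖y + s • v‖ + ‖y - s • v‖ - 2) / s := by
    funext s
    rw [← map_smul, ← map_add, ← map_sub, L.norm_map, L.norm_map]
  rw [this]
  exact hlim

lemma tendsto_line (C r : ℝ) :
    Filter.Tendsto (fun s : ℝ => C * s + r) (nhdsWithin 0 (Ioi 0)) (nhds r) := by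
  have h : Continuous fun s : ℝ => C * s + r := by fun_prop
  have h2 := (h.tendsto 0).mono_left (nhdsWithin_le_nhds (s := Ioi (0 : ℝ)))
  simpa using h2

lemma corner_NE {k : ℕ} {t : ℝ} (ht : 0 < t) : Corner (NE k t) (2 * t / (1 + t)) := by
  obtain ⟨q, hq⟩ : ∃ q, q = 1 / (1 + t) := ⟨_, rfl⟩
  have hq0 : 0 < q := by rw [hq]; positivity
  refine ⟨b1, q • b0, norm_b1, ?_, ?_⟩
  · rw [norm_smul, norm_b0, Real.norm_eq_abs, abs_of_pos hq0, abs_of_pos ht, hq]
    field_simp
  · have hn : ∀ s : ℝ, 0 < s → ‖(b1 : NE k t) + s • q • b0‖ + ‖(b1 : NE k t) - s • q • b0‖ =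
        2 * Real.sqrt (1 + (s * q) ^ 2) + 2 * t * (s * q) := by
      intro s hs
      have e1 := norm_b (k := k) (t := t) (s * q)
      have e2 := norm_b (k := k) (t := t) (-(s * q))
      rw [neg_smul, ← sub_eq_add_neg, neg_sq, abs_neg] at e2
      rw [smul_smul, e1, e2, abs_of_pos ht, abs_of_pos (mul_pos hs hq0)]
      ring
    have h2 : 2 * t / (1 + t) = 2 * t * q := by rw [hq]; ring
    rw [h2]
    refine tendsto_of_tendsto_of_tendsto_of_le_of_le' tendsto_const_nhds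
      (tendsto_line (q ^ 2) (2 * t * q)) ?_ ?_
    · filter_upwards [self_mem_nhdsWithin] with s hs
      have hs0 : 0 < s := hs
      rw [hn s hs0, le_div_iff₀ hs0]
      have h3 : 1 ≤ Real.sqrt (1 + (s * q) ^ 2) := by
        rw [Real.one_le_sqrt]
        nlinarith [sq_nonneg (s * q)]
      nlinarith
    · filter_upwards [self_mem_nhdsWithin] with s hs
      have hs0 : 0 < s := hs
      rw [hn s hs0, div_le_iff₀ hs0]
      have h3 : Real.sqrt (1 + (s * q) ^ 2) ≤ 1 + (s * q) ^ 2 / 2 := by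
        rw [Real.sqrt_le_left (by positivity)]
        nlinarith [sq_nonneg ((s * q) ^ 2)]
      nlinarith

lemma corner_le {k : ℕ} {t r : ℝ} (ht : 0 < t) (h : Corner (NE k t) r) :
    r ≤ 2 * t / (1 + t) := by
  obtain ⟨y, v, hy, hv, hlim⟩ := h
  obtain ⟨Y, hY⟩ : ∃ Y, Y = toE k t y := ⟨_, rfl⟩
  obtain ⟨U, hU⟩ : ∃ U, U = toE k t v := ⟨_, rfl⟩
  have hyn := hy
  have hvn := hv
  rw [norm_NE, ← hY, abs_of_pos ht] at hyn
  rw [norm_NE, ← hU, abs_of_pos ht] at hvn
  have hY0 : 0 < ‖Y‖ := by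
    rw [norm_pos_iff]
    intro h0
    rw [h0] at hyn
    simp at hyn
  have hU1 : |U 0| ≤ 1 / (1 + t) := by
    rw [le_div_iff₀ (by positivity)]
    have := abs_le_norm_E U
    nlinarith
  refine le_of_tendsto_of_tendsto hlim (tendsto_line (‖U‖ ^ 2 / ‖Y‖) (2 * t / (1 + t))) ?_
  filter_upwards [self_mem_nhdsWithin] with s hs
  have hs0 : 0 < s := hs
  rw [div_le_iff₀ hs0, norm_NE (y + s • v), norm_NE (y - s • v), map_add, map_sub, map_smul, ← hY,
    ← hU, abs_of_pos ht]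
  have e1 : (Y + s • U) 0 = Y 0 + s * U 0 := rfl
  have e2 : (Y - s • U) 0 = Y 0 - s * U 0 := rfl
  rw [e1, e2]
  -- the Euclidean part
  have h1 : ‖Y + s • U‖ + ‖Y - s • U‖ ≤ 2 * ‖Y‖ + ‖U‖ ^ 2 / ‖Y‖ * s ^ 2 := by
    have hp := parallelogram_law_with_norm ℝ Y (s • U)
    rw [norm_smul, Real.norm_eq_abs, abs_of_pos hs0] at hp
    have h2 : (‖Y + s • U‖ + ‖Y - s • U‖) ^ 2 ≤ (2 * ‖Y‖ + ‖U‖ ^ 2 / ‖Y‖ * s ^ 2) ^ 2 := by
      have h3 : (2 * ‖Y‖ + ‖U‖ ^ 2 / ‖Y‖ * s ^ 2) ^ 2 =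
          4 * ‖Y‖ ^ 2 + 4 * (‖U‖ ^ 2 * s ^ 2) + (‖U‖ ^ 2 / ‖Y‖ * s ^ 2) ^ 2 := by
        field_simp
        ring
      rw [h3]
      nlinarith [sq_nonneg (‖Y + s • U‖ - ‖Y - s • U‖), sq_nonneg (‖U‖ ^ 2 / ‖Y‖ * s ^ 2)]
    exact (abs_le_of_sq_le_sq' h2 (by positivity)).2
  -- the other part
  have h2 : |Y 0 + s * U 0| + |Y 0 - s * U 0| ≤ 2 * |Y 0| + 2 * (s * |U 0|) := by
    have h3 := abs_add_le (Y 0) (s * U 0)
    have h4 := abs_sub (Y 0) (s * U 0)
    rw [abs_mul, abs_of_pos hs0] at h3 h4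
    linarith
  have h3 : t * (|Y 0 + s * U 0| + |Y 0 - s * U 0|) ≤ t * (2 * |Y 0| + 2 * (s * |U 0|)) := by
    gcongr
  have h4 : t * (2 * (s * |U 0|)) ≤ 2 * t / (1 + t) * s := by
    have h5 : t * (2 * (s * |U 0|)) ≤ t * (2 * (s * (1 / (1 + t)))) := by gcongr
    refine h5.trans (le_of_eq ?_)
    ring
  have h6 : (‖U‖ ^ 2 / ‖Y‖ * s + 2 * t / (1 + t)) * s =
      ‖U‖ ^ 2 / ‖Y‖ * s ^ 2 + 2 * t / (1 + t) * s := by ring
  rw [h6]
  linarith

lemma not_isometric {k : ℕ} {s t : ℝ} (hs : 0 < s) (ht : 0 < t)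
    (h : Nonempty (NE k s ≃ᵢ NE k t)) : s = t := by
  obtain ⟨f⟩ := h
  have h1 := corner_le ht ((corner_NE (k := k) hs).map f.toRealLinearIsometryEquiv)
  have h2 := corner_le hs ((corner_NE (k := k) ht).map f.toRealLinearIsometryEquiv.symm)
  rw [div_le_div_iff₀ (by positivity) (by positivity)] at h1 h2
  nlinarith

/-- **Spaces with the regular polygon property have arbitrary hyperplanes.**

(1) For every strictly convex normed space `V` of finite dimension `≥ 1`, the space `ℝ ⊕₂ V` of the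
pairs `(s, v)` with the norm `√(s² + ‖v‖²)` is a projective-metric space of straight type, of
dimension `dim V + 1`, with the regular polygon property. It is not hyperbolic, it is Euclidean if
and only if `V` is Euclidean, and `v ↦ (0, v)` is an isometric embedding of `V` on a hyperplane.

(2) The spaces `ℝ ⊕₂ V` and `ℝ ⊕₂ W` are isometric only if `V` and `W` are isometric.

(3) In every dimension `m ≥ 3` there is a family, indexed by the positive real numbers, of pairwise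
non-isometric projective-metric spaces with the regular polygon property which are neither Euclidean
nor hyperbolic. So the answer to Q1 is negative.

(4) Every real normed space in which each vector lies in a Euclidean plane has the regular polygon
property. -/
theorem result :
    (∀ (V : Type) [NormedAddCommGroup V] [NormedSpace ℝ V] [FiniteDimensional ℝ V] [Nontrivial V]
      [StrictConvexSpace ℝ V],
      IsStraightProjectiveMetric (Module.finrank ℝ V + 1) (WithLp 2 (ℝ × V)) ∧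
      RegularPolygonProperty (WithLp 2 (ℝ × V)) ∧
      ¬ IsHyperbolic (WithLp 2 (ℝ × V)) ∧
      (IsEuclidean (WithLp 2 (ℝ × V)) ↔ IsEuclidean V) ∧
      Isometry (fun v : V => (WithLp.toLp 2 ((0 : ℝ), v) : WithLp 2 (ℝ × V)))) ∧
    (∀ (V W : Type) [NormedAddCommGroup V] [NormedSpace ℝ V] [FiniteDimensional ℝ V]
      [NormedAddCommGroup W] [NormedSpace ℝ W] [FiniteDimensional ℝ W],
      Nonempty (WithLp 2 (ℝ × V) ≃ᵢ WithLp 2 (ℝ × W)) ↔ Nonempty (V ≃ᵢ W)) ∧
    (∀ m : ℕ, 3 ≤ m → ∃ (X : {t : ℝ // 0 < t} → Type) (_ : ∀ t, MetricSpace (X t)),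
      (∀ t, IsStraightProjectiveMetric m (X t) ∧ RegularPolygonProperty (X t) ∧
        ¬ IsEuclidean (X t) ∧ ¬ IsHyperbolic (X t)) ∧
      ∀ s t, s ≠ t → IsEmpty (X s ≃ᵢ X t)) ∧
    (∀ (Z : Type) [NormedAddCommGroup Z] [NormedSpace ℝ Z],
      (∀ x : Z, ∃ T : ℂ →ₗᵢ[ℝ] Z, x ∈ range T) → RegularPolygonProperty Z) := by
  have main : ∀ (V : Type) [NormedAddCommGroup V] [NormedSpace ℝ V] [FiniteDimensional ℝ V]
      [Nontrivial V] [StrictConvexSpace ℝ V],
      IsStraightProjectiveMetric (Module.finrank ℝ V + 1) (WithLp 2 (ℝ × V)) ∧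
      RegularPolygonProperty (WithLp 2 (ℝ × V)) ∧
      ¬ IsHyperbolic (WithLp 2 (ℝ × V)) ∧
      (IsEuclidean (WithLp 2 (ℝ × V)) ↔ IsEuclidean V) ∧
      Isometry (fun v : V => (WithLp.toLp 2 ((0 : ℝ), v) : WithLp 2 (ℝ × V))) := by
    intro V _ _ _ _ _
    refine ⟨?_, polygon exists_plane, ?_, ?_, isometry_snd⟩
    · rw [← finrank_sum]
      exact straight
    · obtain ⟨T, -⟩ := exists_plane (0 : LineSum V)
      exact not_hyperbolic T
    · rw [euclidean_iff, euclidean_iff]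
      exact par_iff
  refine ⟨main, fun V W _ _ _ _ _ _ => cancel, ?_, fun Z _ _ h => polygon h⟩
  intro m hm
  obtain ⟨k, rfl⟩ : ∃ k, m = k + 3 := ⟨m - 3, by omega⟩
  refine ⟨fun t => WithLp 2 (ℝ × NE k t.1), fun t => inferInstance, fun t => ?_, ?_⟩
  · obtain ⟨h1, h2, h3, h4, -⟩ := main (NE k t.1)
    rw [finrank_NE] at h1
    refine ⟨h1, h2, ?_, h3⟩
    rw [h4, euclidean_iff]
    exact not_par_NE t.2
  · intro s t hst
    refine ⟨fun f => hst (Subtype.ext ?_)⟩
    exact not_isometric (k := k) s.2 t.2 (cancel.1 ⟨f⟩)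

end Pool.Agent.Results.MP_a3bfba_gt.HyperplanesArbitrary
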